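import Pool.Agent.H90.CNY.Stmts

/-! # Board cny, row YLO -/

set_option autoImplicit false

namespace Pool.CND

open Finset

theorem ylo_thm (hWLD : S_WLD) (hUMW : S_UMW) (hHBP : S_HBP) (hCON : S_CON) (hIND : S_IND)
    (hRAM : S_RAM) (hYTH : S_YTH) (hYCY : S_YCY) (hYTA : S_YTA) (hYCC : S_YCC) (hYCR : S_YCR)
    (hYDV : S_YDV) (hYLM : S_YLM) (hYLD : S_YLD) : S_YLO := by
  intro p k L G _ _ _ _ _ P ρ c hp hchar hinj hc
  classical
  haveI : Fintype G := Fintype.ofFinite G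
  obtain ⟨W, I, hW, hI, hWI, ⟨b, hb⟩, n, hpn, hn⟩ := hWLD p k L G P ρ hp hchar hinj
  rcases hCON k L G P ρ W I c hinj hW hI hc with h0 | ⟨l, hl, hcU⟩
  · exact Or.inl h0
  right
  have hUM := hUMW k L G P ρ W hinj hW
  have hl1 : 1 ≤ l := by
    obtain ⟨g, hg, hg1, hgl⟩ := hl.mem
    rw [← hgl]
    exact hUM.pos g hg hg1
  obtain ⟨t, rfl⟩ : ∃ t : ℕ, l = t := ⟨l.toNat, by omega⟩
  have ht1 : 1 ≤ t := by exact_mod_cast hl1
  obtain ⟨ζ, hZ, hζ⟩ := hYTH k L G P ρ W I hW hI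
  obtain ⟨C, θ, hC, hT⟩ := hYTA k L G P ρ W I ζ t hinj hW hI hZ hζ hl
  have hCW : C ≤ W := fun w hw => ((hC w).1 hw).1
  have hCne : C ≠ ⊥ := by
    obtain ⟨g, hg, hg1, hgl⟩ := hl.mem
    intro h
    have : g ∈ C := (hC g).2 ⟨hg, Or.inr hgl⟩
    rw [h, Subgroup.mem_bot] at this
    exact hg1 this
  have hcardW : 0 < Nat.card W := Nat.card_pos
  have hn1 : 1 ≤ n := by
    rcases Nat.eq_zero_or_pos n with h | h
    · rw [h, zero_mul] at hn
      have : 0 < Nat.card I := Nat.card_pos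
      omega
    · exact h
  obtain ⟨g0, hg0, hgj, hgr⟩ := hYCY k G W I ζ n hWI hZ hn
  obtain ⟨hEA, -⟩ := hYCC p k G W I C ζ θ t hp hchar hCW hWI hZ hT
  obtain ⟨hYC, hYS, hcen⟩ := hYCR p k G W I C ζ θ t n g0 hp hchar hCW hWI hCne hZ hT hg0 hgj hgr
  obtain ⟨s, hs⟩ := hYDV k L G P ρ W I ζ n g0 hinj hW hI hZ hζ hn1 hg0 hgr
  have hWq : (Nat.card W : ℚ) ≠ 0 := by exact_mod_cast hcardW.ne'
  have hnU : (n : ℚ) * c = U (fun g => P.b (ρ g)) W (t : ℤ) := by
    rw [hn, Nat.cast_mul] at hcU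
    have h1 : (Nat.card W : ℚ) * ((n : ℚ) * c) = Nat.card W * U (fun g => P.b (ρ g)) W (t : ℤ) := by
      rw [← hcU]; ring
    exact mul_left_cancel₀ hWq h1
  have hnc : ((n * p ^ b : ℕ) : ℚ) * c = ((t : ℤ) : ℚ) + ((n : ℤ) : ℚ) * (s : ℚ) := by
    have h1 : ((n * p ^ b : ℕ) : ℚ) * c = Nat.card W * U (fun g => P.b (ρ g)) W (t : ℤ) := by
      rw [← hnU, hb]
      push_cast
      ring
    rw [h1]
    unfold U
    rw [mul_div_cancel₀ _ hWq, hs]
    push_cast
    ring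
  have hL : ∀ r : ℕ, ((n : ℤ) ∣ r * (t : ℤ) → ∃ z : ℤ, ((r * p ^ b : ℕ) : ℚ) * c = z) ∧
      ((∃ (j : ℕ) (z : ℤ), ((p ^ j * r : ℕ) : ℚ) * c = z) → (n : ℤ) ∣ r * (t : ℤ)) := fun r =>
    hYLD p n r b t s c hp hpn hn1 (by rw [hnc]; push_cast; ring)
  have hY : ∀ r : ℕ, YC I C r ↔ (n : ℤ) ∣ r * (t : ℤ) := by
    intro r
    rw [hYC r]
    constructor
    · intro h
      exact_mod_cast h
    · intro h
      exact_mod_cast h
  have hone : ∀ g : G, ρ g = 1 → g = 1 := fun g hg => hinj (by rw [hg, map_one])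
  have hfix1 : Fixes P (ρ 1) := by
    intro x _
    rw [map_one]
    rfl
  have hWm : ∀ g : G, g ∈ W ↔ g ∈ ram P ρ 1 := fun g => by
    rw [← hW]; rfl
  refine ⟨W, I, C, t, hW, hI, ?_, ht1, ?_, ?_⟩
  · ext w
    rw [SetLike.mem_coe, hC, hRAM k L G P ρ w t ht1]
    constructor
    · rintro ⟨hw, h⟩
      rw [hWm, hRAM k L G P ρ w 1 le_rfl] at hw
      refine ⟨hw.1, ?_⟩
      rcases h with rfl | h
      · exact Or.inl (map_one ρ)
      · exact Or.inr h.ge
    · rintro ⟨hf, h⟩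
      rcases h with h | h
      · have := hone w h
        subst this
        exact ⟨W.one_mem, Or.inl rfl⟩
      · have hw : w ∈ W := by
          rw [hWm, hRAM k L G P ρ w 1 le_rfl]
          refine ⟨hf, Or.inr ?_⟩
          push_cast
          omega
        refine ⟨hw, ?_⟩
        by_cases h1 : w = 1
        · exact Or.inl h1
        · exact Or.inr (le_antisymm (hl.le w hw h1) h)
  · ext w
    rw [hRAM k L G P ρ w (t + 1) (by omega), Set.mem_singleton_iff]
    constructor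
    · rintro ⟨hf, h⟩
      rcases h with h | h
      · exact hone w h
      · by_contra h1
        have hw : w ∈ W := by
          rw [hWm, hRAM k L G P ρ w 1 le_rfl]
          refine ⟨hf, Or.inr ?_⟩
          push_cast at h ⊢
          omega
        have h2 : P.b (ρ w) ≤ t := hl.le w hw h1
        push_cast at h
        omega
    · rintro rfl
      exact ⟨hfix1, Or.inl (map_one ρ)⟩
  · refine
      { CW := hCW
        WI := hWI
        ne := hCne
        ea := hEA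
        cardW := ⟨b, hb⟩
        cardI := ⟨n, hpn, hn⟩
        nrmW := ?_
        nrmC := hT.nrm
        cen := hcen
        semi := hYS
        den := ?_
        mul := ?_ }
    · intro g hg w hw
      have hwI := hWI hw
      have hgi : g⁻¹ ∈ I := I.inv_mem hg
      have h1 : ζ (g * w * g⁻¹) = 1 := by
        have h2 : ζ w = 1 := (hZ.ker w hwI).2 hw
        have h3 : ζ (g * g⁻¹) = 1 := by
          rw [mul_inv_cancel]
          exact (hZ.ker 1 I.one_mem).2 W.one_mem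
        rw [hZ.mul _ (I.mul_mem hg hwI) _ hgi, hZ.mul _ hg _ hwI, h2, mul_one,
          ← hZ.mul _ hg _ hgi, h3]
      exact (hZ.ker _ (I.mul_mem (I.mul_mem hg hwI) hgi)).1 h1
    · intro r
      rw [hY r]
      constructor
      · intro h
        obtain ⟨z, hz⟩ := (hL r).1 h
        exact ⟨b, z, by rw [mul_comm (p ^ b) r]; exact hz⟩
      · exact (hL r).2
    · intro A d r hA hEA' hcA hr
      obtain ⟨z', hz'⟩ := (hL r).1 ((hY r).1 hr)
      obtain ⟨h1, h2⟩ := hIND p G (fun g => P.b (ρ g)) W A d t hp hUM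
        (hHBP p k L G P ρ W hp hchar hinj hW) ⟨b, hb⟩ hA hEA' hcA hl
      refine ⟨?_, ?_⟩
      · obtain ⟨z, hz⟩ := h1
        refine hYLM p n r d b c z z' hp hpn ?_ hz'
        rw [← hz, ← hnU]
        push_cast
        ring
      · rintro rfl hd
        obtain ⟨z, hz⟩ := h2 rfl hd
        refine hYLM 2 n r (d - 1) b c z z' hp hpn ?_ hz'
        rw [← hz, ← hnU]
        push_cast
        ring

end Pool.CND

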